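import Pool.Agent.H629.TA.Stm

set_option autoImplicit false

/-!
Normal approximation of the Poisson distribution by the Stein equation (for helper629).
-/

open MeasureTheory ProbabilityTheory

namespace Pool.Agent.H767.TA.PN

open Pool.Agent.H629.TA

/-- the weights of the Poisson distribution -/
noncomputable def w (lam : ℝ) (n : ℕ) : ℝ := Real.exp (-lam) * lam ^ n / (n.factorial : ℝ)

theorem w_nonneg {lam : ℝ} (hlam : 0 ≤ lam) (n : ℕ) : 0 ≤ w lam n := by
  unfold w
  positivity

theorem w_hasSum {lam : ℝ} (_hlam : 0 ≤ lam) : HasSum (w lam) 1 := by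
  have h1 : HasSum (fun n : ℕ => lam ^ n / (n.factorial : ℝ)) (Real.exp lam) := by
    rw [Real.exp_eq_exp_ℝ]
    exact NormedSpace.expSeries_div_hasSum_exp lam
  have h2 := h1.mul_left (Real.exp (-lam))
  rw [← Real.exp_add, neg_add_cancel, Real.exp_zero] at h2
  have h3 : (w lam) = fun n : ℕ => Real.exp (-lam) * (lam ^ n / (n.factorial : ℝ)) := by
    funext n
    unfold w
    ring
  rw [h3]
  exact h2

theorem w_succ (lam : ℝ) (n : ℕ) : w lam (n + 1) * ((n + 1 : ℕ) : ℝ) = lam * w lam n := by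
  unfold w
  rw [Nat.factorial_succ, pow_succ]
  push_cast
  have h1 : (n : ℝ) + 1 ≠ 0 := by positivity
  have h2 : ((n.factorial : ℕ) : ℝ) ≠ 0 := by positivity
  field_simp

theorem summable_bdd {lam : ℝ} (hlam : 0 ≤ lam) {g : ℕ → ℝ} {B : ℝ} (hg : ∀ n, |g n| ≤ B) :
    Summable fun n => w lam n * g n := by
  refine Summable.of_norm_bounded (g := fun n => w lam n * B)
    ((w_hasSum hlam).summable.mul_right B) fun n => ?_
  rw [Real.norm_eq_abs, abs_mul, abs_of_nonneg (w_nonneg hlam n)]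
  exact mul_le_mul_of_nonneg_left (hg n) (w_nonneg hlam n)

theorem summable_n {lam : ℝ} (hlam : 0 ≤ lam) : Summable fun n : ℕ => w lam n * (n : ℝ) := by
  rw [← summable_nat_add_iff 1]
  have h1 : (fun n : ℕ => w lam (n + 1) * ((n + 1 : ℕ) : ℝ)) = fun n => lam * w lam n := by
    funext n
    exact w_succ lam n
  rw [h1]
  exact (w_hasSum hlam).summable.mul_left lam

theorem summable_n_bdd {lam : ℝ} (hlam : 0 ≤ lam) {g : ℕ → ℝ} {B : ℝ} (hg : ∀ n, |g n| ≤ B) :
    Summable fun n : ℕ => w lam n * (n : ℝ) * g n := by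
  refine Summable.of_norm_bounded (g := fun n : ℕ => w lam n * (n : ℝ) * B)
    ((summable_n hlam).mul_right B) fun n => ?_
  have h1 : 0 ≤ w lam n * (n : ℝ) := mul_nonneg (w_nonneg hlam n) (Nat.cast_nonneg n)
  rw [Real.norm_eq_abs, abs_mul, abs_of_nonneg h1]
  exact mul_le_mul_of_nonneg_left (hg n) h1

theorem tsum_n {lam : ℝ} (hlam : 0 ≤ lam) {g : ℕ → ℝ} {B : ℝ} (hg : ∀ n, |g n| ≤ B) :
    ∑' n : ℕ, w lam n * (n : ℝ) * g n = lam * ∑' n : ℕ, w lam n * g (n + 1) := by
  rw [(summable_n_bdd hlam hg).tsum_eq_zero_add, ← tsum_mul_left]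
  simp only [Nat.cast_zero, mul_zero, zero_mul, zero_add]
  refine tsum_congr fun n => ?_
  rw [w_succ, mul_assoc]

theorem t_PN : S_PO → S_ST → S_PN := by
  intro _ hST
  obtain ⟨C, hC, H⟩ := hST
  refine ⟨C, hC, fun lam h hlam hh => ?_⟩
  obtain ⟨f, f', hd, hst, hf, hf', hlip⟩ := H h hh
  obtain ⟨s, hs⟩ : ∃ s : ℝ, s = Real.sqrt lam := ⟨_, rfl⟩
  rw [← hs]
  have hs0 : 0 < s := by rw [hs]; exact Real.sqrt_pos.mpr hlam
  have hss : s * s = lam := by rw [hs]; exact Real.mul_self_sqrt hlam.le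
  obtain ⟨N, hN⟩ : ∃ N : ℝ, N = ∫ y, h y ∂(gaussianReal 0 1) := ⟨_, rfl⟩
  rw [← hN] at hst ⊢
  obtain ⟨x, hx⟩ : ∃ x : ℕ → ℝ, ∀ n, x n = ((n : ℝ) - lam) / s := ⟨_, fun _ => rfl⟩
  have hx1 : ∀ n, x (n + 1) = x n + 1 / s := fun n => by
    rw [hx, hx]
    push_cast
    ring
  have hPo : Po lam (fun x => h ((x - lam) / s)) = ∑' n : ℕ, w lam n * h (x n) := by
    unfold Po
    refine tsum_congr fun n => ?_
    rw [hx]
    rfl
  have hw := w_hasSum hlam.le
  -- the four sums
  have sA := (summable_bdd hlam.le (g := fun n => f' (x n)) (fun n => hf' (x n))).hasSum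
  have sB := (summable_bdd hlam.le (g := fun n => f (x n)) (fun n => hf (x n))).hasSum
  have sC := (summable_n_bdd hlam.le (g := fun n => f (x n)) (fun n => hf (x n))).hasSum
  have sD := (summable_bdd hlam.le (g := fun n => f (x (n + 1))) (fun n => hf (x (n + 1)))).hasSum
  rw [tsum_n hlam.le (g := fun n => f (x n)) (fun n => hf (x n))] at sC
  obtain ⟨a, ha⟩ : ∃ a : ℝ, a = ∑' n : ℕ, w lam n * f' (x n) := ⟨_, rfl⟩
  obtain ⟨b, hb⟩ : ∃ b : ℝ, b = ∑' n : ℕ, w lam n * f (x n) := ⟨_, rfl⟩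
  obtain ⟨e, he⟩ : ∃ e : ℝ, e = ∑' n : ℕ, w lam n * f (x (n + 1)) := ⟨_, rfl⟩
  rw [← ha] at sA
  rw [← hb] at sB
  rw [← he] at sC sD
  have hls : lam / s = s := by
    rw [div_eq_iff hs0.ne', hss]
  have h1 : HasSum (fun n => w lam n * h (x n)) (1 * N + a - (1 / s * (lam * e)) + s * b) := by
    have h2 := (((hw.mul_right N).add sA).sub (sC.mul_left (1 / s))).add (sB.mul_left s)
    have h3 : (fun n => w lam n * h (x n)) = fun n => w lam n * N + w lam n * f' (x n) -
        1 / s * (w lam n * (n : ℝ) * f (x n)) + s * (w lam n * f (x n)) := by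
      funext n
      have h4 := hst (x n)
      have h5 : h (x n) = f' (x n) - x n * f (x n) + N := by linarith
      have h6 : x n = 1 / s * (n : ℝ) - s := by
        rw [hx, sub_div, hls]
        ring
      calc w lam n * h (x n) = w lam n * (f' (x n) - x n * f (x n) + N) := by rw [h5]
        _ = w lam n * f' (x n) - w lam n * x n * f (x n) + w lam n * N := by ring
        _ = w lam n * f' (x n) - w lam n * (1 / s * (n : ℝ) - s) * f (x n) + w lam n * N := by
            rw [← h6]
        _ = _ := by ring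
    rw [h3]
    exact h2
  have h2 : HasSum (fun n => w lam n * (f' (x n) - s * (f (x (n + 1)) - f (x n))))
      (a - s * e + s * b) := by
    have h3 := (sA.sub (sD.mul_left s)).add (sB.mul_left s)
    have h4 : (fun n => w lam n * (f' (x n) - s * (f (x (n + 1)) - f (x n)))) =
        fun n => w lam n * f' (x n) - s * (w lam n * f (x (n + 1))) +
          s * (w lam n * f (x n)) := by
      funext n
      ring
    rw [h4]
    exact h3
  have h3 : ∀ n, |f' (x n) - s * (f (x (n + 1)) - f (x n))| ≤ C / s := by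
    intro n
    have hlt : x n < x (n + 1) := by
      rw [hx1]
      have : 0 < 1 / s := by positivity
      linarith
    obtain ⟨z, hz, hz2⟩ := exists_hasDerivAt_eq_slope f f' hlt
      (fun y _ => (hd y).continuousAt.continuousWithinAt) (fun y _ => hd y)
    have h4 : x (n + 1) - x n = 1 / s := by rw [hx1]; ring
    have h5 : s * (f (x (n + 1)) - f (x n)) = f' z := by
      rw [hz2, h4]
      field_simp
    rw [h5]
    refine (hlip (x n) z).trans ?_
    have h6 : |x n - z| ≤ 1 / s := by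
      rw [abs_sub_comm, abs_of_pos (by linarith [hz.1])]
      linarith [hz.2]
    calc C * |x n - z| ≤ C * (1 / s) := mul_le_mul_of_nonneg_left h6 hC
      _ = C / s := by ring
  have h4 := hw.mul_right (C / s)
  rw [one_mul] at h4
  have h5 : a - s * e + s * b ≤ C / s := hasSum_le (fun n =>
    mul_le_mul_of_nonneg_left ((le_abs_self _).trans (h3 n)) (w_nonneg hlam.le n)) h2 h4
  have h6 : -(C / s) ≤ a - s * e + s * b := by
    refine hasSum_le (fun n => ?_) h4.neg h2
    rw [← mul_neg]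
    exact mul_le_mul_of_nonneg_left (neg_le_of_abs_le (h3 n)) (w_nonneg hlam.le n)
  rw [hPo, h1.tsum_eq]
  have h7 : 1 / s * (lam * e) = s * e := by
    calc 1 / s * (lam * e) = lam / s * e := by ring
      _ = s * e := by rw [hls]
  rw [h7, abs_le]
  constructor <;> linarith

end Pool.Agent.H767.TA.PN
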